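import Pool.Agent.H.MP_2744a5_an.A

set_option autoImplicit false

namespace Pool.Agent.Results.MP_2744a5_an.Bij

open Filter Topology Set Pool.Agent.H.MP_2744a5_an

def L0 {T : Type} (G : SimpleGraph T) (f : T → ℂ) : Prop :=
  ∀ ε : ℝ, 0 < ε → {e : T × T | G.Adj e.1 e.2 ∧ ε ≤ ‖f e.1 - f e.2‖}.Finite

def NormLe {T : Type} (G : SimpleGraph T) (o : T) (f : T → ℂ) (c : ℝ) : Prop :=
  ‖f o‖ ≤ c ∧ ∀ v w, G.Adj v w → ‖f v - f w‖ ≤ c

def comb : SimpleGraph V := SimpleGraph.fromRel fun v w => w = par v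

theorem par_lt {v : V} (h : v ≠ par v) : (par v).1 + (par v).2 + 1 = v.1 + v.2 := by
  rcases v with ⟨_ | m, _ | t⟩ <;> simp [par] at h ⊢
  omega

theorem ne_par {v : V} (h : v ≠ (0, 0)) : v ≠ par v := by
  rcases v with ⟨_ | m, _ | t⟩ <;> simp [par] at h ⊢

theorem adj_par {v : V} (h : v ≠ (0, 0)) : comb.Adj v (par v) := ⟨ne_par h, Or.inl rfl⟩

theorem adj_D (f : V → ℂ) {v w : V} (h : comb.Adj v w) :
    (w = par v ∧ ‖f v - f w‖ = ‖D f v‖) ∨ (v = par w ∧ ‖f v - f w‖ = ‖D f w‖) := by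
  obtain ⟨h1, h2 | h2⟩ := h
  · left
    subst h2
    refine ⟨rfl, ?_⟩
    rw [D, if_neg]
    rintro rfl
    exact h1 rfl
  · right
    subst h2
    refine ⟨rfl, ?_⟩
    rw [D, if_neg, norm_sub_rev]
    rintro rfl
    exact h1 rfl

theorem normLe_iff (f : V → ℂ) (c : ℝ) : NormLe comb (0, 0) f c ↔ ∀ v, ‖D f v‖ ≤ c := by
  constructor
  · rintro ⟨h1, h2⟩ v
    unfold D
    split_ifs with h
    · rwa [h]
    · exact h2 _ _ (adj_par h)
  · intro h
    refine ⟨by simpa [D00] using h (0, 0), fun v w hvw => ?_⟩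
    rcases adj_D f hvw with ⟨-, e⟩ | ⟨-, e⟩ <;> rw [e] <;> exact h _

theorem L0_iff (f : V → ℂ) : L0 comb f ↔ Tendsto (D f) cofinite (𝓝 0) := by
  rw [NormedAddGroup.tendsto_nhds_zero]
  refine forall_congr' fun ε => forall_congr' fun hε => ?_
  rw [eventually_cofinite]
  constructor
  · intro h
    refine ((h.image Prod.fst).insert (0, 0)).subset fun v hv => ?_
    by_cases h0 : v = (0, 0)
    · exact Or.inl h0
    · refine Or.inr ⟨(v, par v), ⟨adj_par h0, ?_⟩, rfl⟩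
      simpa [D, h0] using hv
  · intro h
    refine ((h.image fun v => (v, par v)).union (h.image fun v => (par v, v))).subset ?_
    rintro ⟨v, w⟩ ⟨h1, h2⟩
    rcases adj_D f h1 with ⟨e', e⟩ | ⟨e', e⟩
    · exact Or.inl ⟨v, not_lt.2 (e ▸ h2), Prod.ext rfl e'.symm⟩
    · exact Or.inr ⟨w, not_lt.2 (e ▸ h2), Prod.ext e'.symm rfl⟩

theorem result : ∃ (T : Type) (G : SimpleGraph T) (o : T) (φ : T → T) (lam : ℂ),
    G.IsTree ∧ Infinite T ∧ (∀ v, (G.neighborSet v).Finite) ∧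
    (∀ v, 2 ≤ (G.neighborSet v).ncard) ∧
    (∃ C : ℝ, ∀ f, L0 G f → L0 G (f ∘ φ) ∧ ∀ c, NormLe G o f c → NormLe G o (f ∘ φ) (C * c)) ∧
    ‖lam‖ ≤ 1 ∧
    (∃ f, L0 G f ∧ ∀ g, L0 G g → ∀ ε : ℝ, 0 < ε →
      ∃ n : ℕ, NormLe G o (lam ^ n • f ∘ φ^[n] - g) ε) ∧
    Function.Bijective φ := by
  have hfin : ∀ v, (comb.neighborSet v).Finite := by
    intro v
    refine (fin_le (v.1 + v.2 + 1)).subset ?_
    rintro w ⟨h1, h2 | h2⟩
    · subst h2
      have := par_lt h1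
      simp only [mem_ofPred_eq]
      omega
    · subst h2
      exact (par_lt h1.symm).ge
  refine ⟨V, comb, (0, 0), phi, lam, ⟨?_, ?_⟩, inferInstance, hfin, fun v => ?_, ⟨2, fun f hf => ?_⟩,
    by rw [norm_lam]; norm_num, ?_, phi_bij⟩
  · have key : ∀ (k : ℕ) (v : V), v.1 + v.2 = k → comb.Reachable v (0, 0) := by
      intro k
      induction k with
      | zero =>
        rintro ⟨m, h⟩ e
        obtain ⟨rfl, rfl⟩ : m = 0 ∧ h = 0 := by simpa using e
        rfl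
      | succ k ih =>
        intro v e
        have h0 : v ≠ (0, 0) := by
          rintro rfl
          simp at e
        have := par_lt (ne_par h0)
        exact (adj_par h0).reachable.trans (ih _ (by omega))
    exact ⟨fun v w => (key _ v rfl).trans (key _ w rfl).symm⟩
  · refine acyc comb (fun v => v.1 + v.2) par ?_
    rintro v w ⟨h1, h2 | h2⟩
    · subst h2
      have := par_lt h1
      exact Or.inl ⟨rfl, by omega⟩
    · subst h2
      have := par_lt h1.symm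
      exact Or.inr ⟨rfl, by omega⟩
  · obtain ⟨m, h⟩ := v
    have a1 : comb.Adj (m, h) (m, h + 1) := (adj_par (v := (m, h + 1)) (by simp)).symm
    refine (Set.one_lt_ncard (hfin _)).2 ⟨_, a1, ?_⟩
    rcases h with _ | h
    · exact ⟨(m + 1, 0), (adj_par (v := (m + 1, 0)) (by simp)).symm, by simp⟩
    · exact ⟨(m, h), adj_par (v := (m, h + 1)) (by simp), by simp; omega⟩
  · rw [L0_iff] at hf ⊢
    refine ⟨tend_phi hf, fun c hc => ?_⟩
    rw [normLe_iff] at hc ⊢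
    exact bd_phi hc
  · simpa only [L0_iff, normLe_iff] using hyper

end Pool.Agent.Results.MP_2744a5_an.Bij
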